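import Pool.Agent.J6H54.CH.Stm

/-!
# The window lemma (adapted from `J6H24/CG/M07`)
-/

set_option autoImplicit false

namespace Pool.Agent.J6H27.CH07

open Pool.Agent.J6H54.CH

variable {Λ : Type} [AddCommGroup Λ] {σ : Λ ≃ₗ[ℤ] Λ} {T : Finset (Λ × ℤ)}

/-! ### Visits -/

theorem vis_cons (j : ℤ) (R : ℕ) (s : ℤ) (a : Λ × ℤ) (w : List (Λ × ℤ)) :
    vis j R s (a :: w) = (if (s - j).natAbs ≤ R then 1 else 0) + vis j R (s + a.2) w := by
  unfold vis
  rw [Finset.card_filter, Finset.card_filter, List.length_cons, Finset.sum_range_succ']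
  rw [add_comm]
  congr 1
  · simp
  · refine Finset.sum_congr rfl fun i _ => ?_
    rw [List.take_succ_cons, ht_cons, add_assoc]

theorem vis_append (j : ℤ) (R : ℕ) (s : ℤ) (u v : List (Λ × ℤ)) :
    vis j R s (u ++ v) ≤ vis j R s u + vis j R (s + ht u) v := by
  induction u generalizing s with
  | nil => simp
  | cons a u ih =>
    rw [List.cons_append, vis_cons, vis_cons, ht_cons, ← add_assoc]
    have := ih (s + a.2)
    omega

theorem vis_le (j : ℤ) (R : ℕ) (s : ℤ) (w : List (Λ × ℤ)) : vis j R s w ≤ w.length + 1 := by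
  unfold vis
  refine (Finset.card_filter_le _ _).trans ?_
  rw [Finset.card_range]

theorem vis_av {j : ℤ} {R : ℕ} {s : ℤ} {w : List (Λ × ℤ)} (h : Av j R s w) :
    vis j R s w = 0 := by
  unfold vis
  rw [Finset.card_eq_zero, Finset.filter_eq_empty_iff]
  intro i hi
  rw [Finset.mem_range] at hi
  exact not_le.2 (h i (by omega))

/-! ### Costs in absolute coordinates -/

/-- the length of an element which goes from the height `h` to `h'` and contributes `x` -/
noncomputable def rc (σ : Λ ≃ₗ[ℤ] Λ) (T : Finset (Λ × ℤ)) (h : ℤ) (x : Λ) (h' : ℤ) : ℕ :=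
  len σ T ((σ ^ (-h)) x, h' - h)

theorem rc_add (hT : Gen σ T) (h1 h2 h3 : ℤ) (x y : Λ) :
    rc σ T h1 (x + y) h3 ≤ rc σ T h1 x h2 + rc σ T h2 y h3 := by
  unfold rc
  have h := len_add hT ((σ ^ (-h1)) x) ((σ ^ (-h2)) y) (h2 - h1) (h3 - h2)
  have e1 : (σ ^ (-h1)) x + (σ ^ (h2 - h1)) ((σ ^ (-h2)) y) = (σ ^ (-h1)) (x + y) := by
    rw [← pow_add_apply, map_add]
    congr 3
    ring
  have e2 : h2 - h1 + (h3 - h2) = h3 - h1 := by ring
  rw [e1, e2] at h
  exact h

theorem rc_vert (hT : Gen σ T) {p q : Λ → ℝ} {R : ℕ} (hB : Bd σ T p q R) (h h' : ℤ) :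
    rc σ T h 0 h' ≤ R * (h' - h).natAbs := by
  unfold rc
  rw [map_zero]
  exact len_vert hT hB _

theorem rc_word {u : List (Λ × ℤ)} (hu : Wd T u) (h : ℤ) :
    rc σ T h ((σ ^ h) (val σ u).1) (h + ht u) ≤ u.length := by
  unfold rc
  have e2 : h + ht u - h = (val σ u).2 := by rw [val_snd]; ring
  rw [pow_neg_pow, e2]
  exact len_le hu

/-- the contribution of a concatenation -/
theorem con_append (s : ℤ) (u v : List (Λ × ℤ)) :
    (σ ^ s) (val σ (u ++ v)).1 = (σ ^ s) (val σ u).1 + (σ ^ (s + ht u)) (val σ v).1 := by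
  rw [val_append_fst, map_add, ← pow_add_apply]

/-! ### The numerical estimate -/

theorem bound {n c C : ℕ} (h : n ≤ c + 2 * C * Nat.log 2 n) :
    n ≤ c + 2 * C * (2 * (c + 4 * C) + 1) := by
  rcases Nat.eq_zero_or_pos n with h0 | h0
  · rw [h0]; exact Nat.zero_le _
  set l := Nat.log 2 n with hl
  have h1 : 2 ^ l ≤ n := Nat.pow_log_le_self 2 h0.ne'
  set m := l / 2 with hm
  have h2 : m + 1 ≤ 2 ^ m := Nat.lt_two_pow_self
  have h3 : (m + 1) * (m + 1) ≤ 2 ^ l := by
    calc (m + 1) * (m + 1) ≤ 2 ^ m * 2 ^ m := Nat.mul_le_mul h2 h2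
      _ = 2 ^ (m + m) := (pow_add _ _ _).symm
      _ ≤ 2 ^ l := Nat.pow_le_pow_right (by norm_num) (by omega)
  have h4 : l ≤ 2 * m + 1 := by omega
  have h5 : (m + 1) * (m + 1) ≤ (c + 4 * C) * (m + 1) := by
    have h6 : 2 * C * l ≤ 2 * C * (2 * m + 1) := Nat.mul_le_mul_left _ h4
    nlinarith
  have h6 : m + 1 ≤ c + 4 * C := Nat.le_of_mul_le_mul_right h5 (Nat.succ_pos m)
  have h7 : l ≤ 2 * (c + 4 * C) + 1 := by omega
  exact h.trans (Nat.add_le_add_left (Nat.mul_le_mul_left _ h7) _)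

/-! ### The first exit -/

theorem exit_or (j : ℤ) (D : ℕ) (s : ℤ) (w : List (Λ × ℤ)) :
    Inn j D s w ∨ ∃ u v, w = u ++ v ∧ Inn j D s u ∧ D < (s + ht u - j).natAbs := by
  classical
  by_cases h : ∃ i, i ≤ w.length ∧ D < (s + ht (w.take i) - j).natAbs
  · right
    obtain ⟨h1, h2⟩ := Nat.find_spec h
    refine ⟨w.take (Nat.find h), w.drop (Nat.find h), (List.take_append_drop _ _).symm, ?_, h2⟩
    intro i _ hi
    rw [List.length_take, min_eq_left h1] at hi
    rw [List.take_take, min_eq_left hi.le]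
    have h3 := Nat.find_min h hi
    by_contra h4
    exact h3 ⟨by omega, not_le.1 h4⟩
  · left
    intro i _ hi
    by_contra h4
    exact h ⟨i, hi.le, not_le.1 h4⟩

/-- **CH-07**: geodesic words visit the neighbourhood of each height a bounded number of times. -/
theorem m07 (h2 : S_metric) (h3 : S_in) (h4 : S_inside) (h5 : S_split) (h6 : S_collect) :
    S_window := by
  intro Λ _ σ T p q κ Mr C0 R H hT hB
  have hR := hB.one_le
  set D : ℕ := R + 2 * R ^ 3 with hD
  have hRD : R ≤ D := Nat.le_add_right _ _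
  obtain ⟨B, hΛ⟩ := h4 Λ σ T p q κ Mr C0 R D H hT hB
  obtain ⟨C, hC⟩ := h2 Λ σ T p q κ Mr C0 R H hT hB
  set c : ℕ := 2 * (R * (6 * D + 2 * R)) + 2 * (C * (2 * D + 3 * R + 2)) with hc
  set N : ℕ := c + 2 * C * (2 * (c + 4 * C) + 1) with hN
  refine ⟨3 * B + 2 * N + 5, fun j s w hw => ?_⟩
  rcases exit_or j D s w with h | ⟨w0, w1, rfl, hw0, hs1⟩
  · have h7 := hΛ j s w hw h
    have h8 := vis_le j R s w
    omega
  have hl0 : w0.length ≤ B := hΛ j s w0 (hw.left hT) hw0
  have hg1 : Geo σ T w1 := hw.right hT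
  have hv0 := vis_append j R s w0 w1
  have hv0' := vis_le j R s w0
  set s1 : ℤ := s + ht w0 with hs1def
  rcases h5 Λ T R D j s1 w1 hR hB.ht_le hg1.1 hRD hs1 with ⟨e1, e2, rfl, he1, he2⟩ |
    ⟨o, t, w2, rfl, ht0, ho, ho1, ho2, hti, hw2, hw2', hlen⟩
  · -- no second excursion
    have h7 : e2.length ≤ B := by
      refine hΛ j (s1 + ht e1) e2 (hg1.right hT) fun i hi hi' => ?_
      exact he2 i hi hi'.le
    have h8 := vis_append j R s1 e1 e2
    rw [vis_av he1] at h8
    have h9 := vis_le j R (s1 + ht e1) e2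
    omega
  have hgt : Geo σ T t := hg1.mid hT
  have hg2 : Geo σ T w2 := hg1.right hT
  have hlt : t.length ≤ B := hΛ j (s1 + ht o) t hgt hti
  set s2 : ℤ := s1 + ht o + ht t with hs2def
  obtain ⟨xu, xl, y, nu, nl, τ, M, ae, e, he, hval, hae, hae', hy, hy', hnu, hnl, hsum, hM,
    hvis⟩ := h6 Λ σ T p q κ Mr C0 R D B H hT hB hRD hΛ j s2 w2 hg2 hw2 hw2'
  -- the contribution of `t`
  have hin := h3 Λ σ T p q κ Mr C0 R H hB t (j - D - R) (j + D + R) (s1 + ht o) hgt.1 (by
    intro i hi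
    rcases Nat.eq_zero_or_pos i with rfl | hpos
    · rw [List.take_zero, ht_nil, add_zero]
      omega
    · have := hti i hpos hi
      omega)
  set yt : Λ := (σ ^ (s1 + ht o)) (val σ t).1 with hyt
  have hin1 : p ((σ ^ (-(j + D + R))) yt) ≤ t.length * R := by
    have h7 := hin.1
    have h8 : (s1 + ht o - (j + D + R) : ℤ) = -(j + D + R) + (s1 + ht o) := by ring
    rw [h8, pow_add_apply] at h7
    exact h7
  have hin2 : q ((σ ^ (-(j - D - R))) yt) ≤ t.length * R := by
    have h7 := hin.2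
    have h8 : (s1 + ht o - (j - D - R) : ℤ) = -(j - D - R) + (s1 + ht o) := by ring
    rw [h8, pow_add_apply] at h7
    exact h7
  have hlog : (((τ + t.length : ℕ) : ℝ) * R) ≤ 2 ^ (Nat.log 2 (τ + t.length) + 1 + R) := by
    have h9 : τ + t.length < 2 ^ (Nat.log 2 (τ + t.length) + 1) :=
      Nat.lt_pow_succ_log_self (by norm_num) _
    have h10 : (τ + t.length) * R ≤ 2 ^ (Nat.log 2 (τ + t.length) + 1 + R) := by
      rw [pow_add _ _ R]
      exact Nat.mul_le_mul h9.le Nat.lt_two_pow_self.le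
    exact_mod_cast h10
  have hy1 : p ((σ ^ (-((D + R : ℕ) : ℤ))) ((σ ^ (-j)) (y + yt))) ≤
      2 ^ (Nat.log 2 (τ + t.length) + 1 + R) := by
    have e1 : (-((D + R : ℕ) : ℤ) + -j : ℤ) = -(j + D + R) := by push_cast; ring
    rw [← pow_add_apply, e1, map_add]
    refine (H.p_add _ _).trans (le_trans ?_ hlog)
    push_cast
    linarith
  have hy2 : q ((σ ^ ((D + R : ℕ) : ℤ)) ((σ ^ (-j)) (y + yt))) ≤
      2 ^ (Nat.log 2 (τ + t.length) + 1 + R) := by
    have e1 : (((D + R : ℕ) : ℤ) + -j : ℤ) = -(j - D - R) := by push_cast; ring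
    rw [← pow_add_apply, e1, map_add]
    refine (H.q_add _ _).trans (le_trans ?_ hlog)
    push_cast
    linarith
  -- the length of the element `y'`
  have hℓ : rc σ T j (y + yt) j ≤ C * (2 * D + 3 * R + 2 + Nat.log 2 (τ + t.length)) := by
    unfold rc
    rw [sub_self]
    refine (hC _ _ _ _ hy1 hy2).trans (Nat.mul_le_mul_left _ ?_)
    omega
  -- the total length
  have hwd : Wd T (w0 ++ o) := hw.1.left.append hg1.1.left.left
  have key : (w0 ++ (o ++ t ++ w2)).length ≤ (w0 ++ o).length + R * (6 * D + 2 * R) + nu + nl +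
      rc σ T j (y + yt) j + e.length := by
    have e0 : val σ (w0 ++ (o ++ t ++ w2)) = ((σ ^ (-s)) ((σ ^ s)
        (val σ (w0 ++ (o ++ t ++ w2))).1), s + ht (w0 ++ (o ++ t ++ w2)) - s) := by
      apply Prod.ext
      · show _ = (σ ^ (-s)) ((σ ^ s) (val σ (w0 ++ (o ++ t ++ w2))).1)
        rw [pow_neg_pow]
      · show _ = s + ht (w0 ++ (o ++ t ++ w2)) - s
        rw [val_snd]
        ring
    have e1 : (σ ^ s) (val σ (w0 ++ (o ++ t ++ w2))).1 =
        (σ ^ s) (val σ (w0 ++ o)).1 + (0 + (xu + (0 + (xl + (0 + ((y + yt) +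
          (0 + (σ ^ ae) (val σ e).1))))))) := by
      have h7 : w0 ++ (o ++ t ++ w2) = (w0 ++ o) ++ (t ++ w2) := by simp
      rw [h7, con_append, con_append (s + ht (w0 ++ o))]
      have h8 : s + ht (w0 ++ o) = s1 + ht o := by rw [ht_append, hs1def]; ring
      rw [h8, ← hyt, ← hs2def, hval]
      abel
    have e2 : s + ht (w0 ++ (o ++ t ++ w2)) = ae + ht e := by
      rw [hae, hs2def, hs1def]
      simp only [ht_append]
      ring
    have h7 : (w0 ++ (o ++ t ++ w2)).length = rc σ T s ((σ ^ s) (val σ (w0 ++ o)).1 +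
        (0 + (xu + (0 + (xl + (0 + ((y + yt) +
          (0 + (σ ^ ae) (val σ e).1)))))))) (ae + ht e) := by
      unfold rc
      rw [← e1, ← e2, ← e0]
      exact hw.2.symm
    rw [h7]
    have a1 := rc_add hT s (s1 + ht o) (ae + ht e) ((σ ^ s) (val σ (w0 ++ o)).1)
      (0 + (xu + (0 + (xl + (0 + ((y + yt) + (0 + (σ ^ ae) (val σ e).1)))))))
    have a2 := rc_add hT (s1 + ht o) (j + D) (ae + ht e) 0
      (xu + (0 + (xl + (0 + ((y + yt) + (0 + (σ ^ ae) (val σ e).1))))))
    have a3 := rc_add hT (j + D) (j + D) (ae + ht e) xu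
      (0 + (xl + (0 + ((y + yt) + (0 + (σ ^ ae) (val σ e).1)))))
    have a4 := rc_add hT (j + D) (j - D) (ae + ht e) 0
      (xl + (0 + ((y + yt) + (0 + (σ ^ ae) (val σ e).1))))
    have a5 := rc_add hT (j - D) (j - D) (ae + ht e) xl
      (0 + ((y + yt) + (0 + (σ ^ ae) (val σ e).1)))
    have a6 := rc_add hT (j - D) j (ae + ht e) 0 ((y + yt) + (0 + (σ ^ ae) (val σ e).1))
    have a7 := rc_add hT j j (ae + ht e) (y + yt) (0 + (σ ^ ae) (val σ e).1)
    have a8 := rc_add hT j ae (ae + ht e) 0 ((σ ^ ae) (val σ e).1)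
    have b1 : rc σ T s ((σ ^ s) (val σ (w0 ++ o)).1) (s1 + ht o) ≤ (w0 ++ o).length := by
      have h8 := rc_word (σ := σ) hwd s
      have h9 : s + ht (w0 ++ o) = s1 + ht o := by rw [ht_append, hs1def]; ring
      rw [h9] at h8
      exact h8
    have b2 : rc σ T (s1 + ht o) 0 (j + D) ≤ R * (2 * D + R) :=
      (rc_vert hT hB _ _).trans (Nat.mul_le_mul_left _ (by omega))
    have b3 : rc σ T (j + D) xu (j + D) ≤ nu := by
      unfold rc
      rw [sub_self]
      exact hnu
    have b4 : rc σ T (j + D) 0 (j - D) ≤ R * (2 * D) :=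
      (rc_vert hT hB _ _).trans (Nat.mul_le_mul_left _ (by omega))
    have b5 : rc σ T (j - D) xl (j - D) ≤ nl := by
      unfold rc
      rw [sub_self]
      exact hnl
    have b6 : rc σ T (j - D) 0 j ≤ R * D :=
      (rc_vert hT hB _ _).trans (Nat.mul_le_mul_left _ (by omega))
    have b8 : rc σ T j 0 ae ≤ R * (D + R) :=
      (rc_vert hT hB _ _).trans (Nat.mul_le_mul_left _ (by omega))
    have b9 := rc_word (σ := σ) he ae
    have b10 : R * (6 * D + 2 * R) = R * (2 * D + R) + R * (2 * D) + R * D + R * (D + R) := by ring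
    omega
  -- the estimate of `τ`
  have hM' : 4 * (R * R * M) ≤ τ := by
    have h7 : 2 * (D - R) * M = R * (4 * (R * R * M)) := by
      have : D - R = 2 * R ^ 3 := by omega
      rw [this]
      ring
    rw [h7] at hM
    exact Nat.le_of_mul_le_mul_left hM hR
  have hM1 : M ≤ R * R * M := by
    have : 1 * M ≤ R * R * M := Nat.mul_le_mul_right _ (Nat.mul_pos hR hR)
    omega
  have hn : τ + t.length ≤ c + 2 * C * Nat.log 2 (τ + t.length) := by
    simp only [List.length_append] at key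
    have h7 : 2 * R * R * M = 2 * (R * R * M) := by ring
    rw [h7] at hsum
    have h8 : C * (2 * D + 3 * R + 2 + Nat.log 2 (τ + t.length)) =
        C * (2 * D + 3 * R + 2) + C * Nat.log 2 (τ + t.length) := by ring
    rw [h8] at hℓ
    have h9 : 2 * C * Nat.log 2 (τ + t.length) = 2 * (C * Nat.log 2 (τ + t.length)) := by ring
    rw [h9, hc]
    omega
  have hn' := bound hn
  -- the visits
  have v1 := vis_append j R s1 (o ++ t) w2
  have v2 := vis_append j R s1 o t
  have v3 := vis_le j R (s1 + ht o) t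
  rw [vis_av ho] at v2
  have h7 : s1 + ht (o ++ t) = s2 := by rw [ht_append, hs2def]; ring
  rw [h7] at v1
  omega

end Pool.Agent.J6H27.CH07
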